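import Mathlib

/-!
# Least degree of a polynomial extending a multiplicity matrix
-/

set_option autoImplicit false

namespace Pool.Agent.Results.MP_680f50_nt.RankFormula

open Polynomial

variable {K : Type*} [Field K]

/-- `(v 0, ..., v n)` is a multiplicity vector -/
def IsMultVec (n : ℕ) (v : Fin (n + 1) → ℕ) : Prop :=
  v (Fin.last n) = 0 ∧ ∀ j : Fin n, 1 ≤ v j.castSucc → v j.succ = v j.castSucc - 1

/-- `M` is an `m × (n+1)` multiplicity matrix -/
def IsMultMatrix (m n : ℕ) (M : Fin m → Fin (n + 1) → ℕ) : Prop :=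
  (∀ i, IsMultVec n (M i)) ∧ ∀ j : Fin (n + 1), ∑ i, M i j ≤ n - (j : ℕ)

/-- `F` has degree at least `n` and, for all `i` and all `j ≤ n`, `Λ i` is a zero of the `j`-th
derivative of `F` of multiplicity exactly `M i j` -/
def Extends {m n : ℕ} (Λ : Fin m → K) (M : Fin m → Fin (n + 1) → ℕ) (F : K[X]) : Prop :=
  n ≤ F.natDegree ∧ F ≠ 0 ∧
    ∀ (i : Fin m) (j : Fin (n + 1)),
      rootMultiplicity (Λ i) ((derivative^[(j : ℕ)]) F) = M i j

/-- the set of degrees of the polynomials that extend `M` with respect to `Λ` -/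
def degrees {m n : ℕ} (Λ : Fin m → K) (M : Fin m → Fin (n + 1) → ℕ) : Set ℕ :=
  {d | ∃ F : K[X], Extends Λ M F ∧ F.natDegree = d}

/-- the positions of the nonzero entries of `M` -/
def Zset {m n : ℕ} (M : Fin m → Fin (n + 1) → ℕ) : Set (Fin m × Fin (n + 1)) :=
  {s | 1 ≤ M s.1 s.2}

/-- row `(i, k)` of the matrix `(l (l-1) ... (l-k+1) * (Λ i)^(l-k))` with columns `l = 0, ..., N` -/
def row {m n : ℕ} (Λ : Fin m → K) (N : ℕ) (s : Fin m × Fin (n + 1)) : Fin (N + 1) → K :=
  fun l => (Nat.descFactorial (l : ℕ) (s.2 : ℕ) : K) * Λ s.1 ^ ((l : ℕ) - (s.2 : ℕ))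

/-- rank of the rows indexed by `S` -/
noncomputable def rk {m n : ℕ} (Λ : Fin m → K) (N : ℕ) (S : Set (Fin m × Fin (n + 1))) : ℕ :=
  Module.finrank K (Submodule.span K (row Λ N '' S))

/-- the rank condition at `N`: adding the row of any zero entry of `M` to the rows of all the
nonzero entries raises the rank -/
def RankCond {m n : ℕ} (Λ : Fin m → K) (M : Fin m → Fin (n + 1) → ℕ) (N : ℕ) : Prop :=
  ∀ w : Fin m × Fin (n + 1), M w.1 w.2 = 0 →
    rk Λ N (insert w (Zset M)) = rk Λ N (Zset M) + 1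

/-- one more than the position of the last nonzero entry of row `i` (`0` for a zero row) -/
def lastPos {m n : ℕ} (M : Fin m → Fin (n + 1) → ℕ) (i : Fin m) : ℕ :=
  Finset.univ.sup (fun k : Fin (n + 1) => if 1 ≤ M i k then (k : ℕ) + 1 else 0)

/-! ### derivatives at a point as linear forms in the coefficients -/

lemma eval_deriv (N : ℕ) (F : K[X]) (hF : F.natDegree ≤ N) (a : K) (k : ℕ) :
    ((derivative^[k]) F).eval a
      = ∑ l : Fin (N + 1), F.coeff l * ((Nat.descFactorial (l : ℕ) k : K) * a ^ ((l : ℕ) - k)) := by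
  conv_lhs => rw [F.as_sum_range' (N + 1) (by omega)]
  rw [iterate_derivative_sum, eval_finsetSum]
  rw [Finset.sum_range (fun i => eval a ((derivative^[k]) (monomial i (F.coeff i))))]
  apply Finset.sum_congr rfl
  intro l _
  rw [← C_mul_X_pow_eq_monomial, iterate_derivative_C_mul, iterate_derivative_X_pow_eq_natCast_mul]
  simp

lemma pattern [CharZero K] {m n : ℕ} (Λ : Fin m → K) (M : Fin m → Fin (n + 1) → ℕ)
    (hM : ∀ i, IsMultVec n (M i)) (F : K[X]) (hF0 : F ≠ 0) (hFn : n ≤ F.natDegree) :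
    (∀ (i : Fin m) (j : Fin (n + 1)),
      rootMultiplicity (Λ i) ((derivative^[(j : ℕ)]) F) = M i j) ↔
    (∀ (i : Fin m) (j : Fin (n + 1)),
      (((derivative^[(j : ℕ)]) F).eval (Λ i) = 0 ↔ 1 ≤ M i j)) := by
  have hne : ∀ j : ℕ, j ≤ n → (derivative^[j]) F ≠ 0 := by
    intro j hj h
    have h1 : ((derivative^[j]) F).coeff (F.natDegree - j) = 0 := by rw [h]; simp
    rw [coeff_iterate_derivative] at h1
    have h2 : F.natDegree - j + j = F.natDegree := by omega
    rw [h2, nsmul_eq_mul, mul_eq_zero] at h1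
    rcases h1 with h1 | h1
    · have h3 : (Nat.descFactorial F.natDegree j) = 0 := by exact_mod_cast h1
      rw [Nat.descFactorial_eq_zero_iff_lt] at h3
      omega
    · exact hF0 (leadingCoeff_eq_zero.mp h1)
  constructor
  · intro h i j
    rw [← h i j, Nat.one_le_iff_ne_zero, ← Nat.pos_iff_ne_zero,
      rootMultiplicity_pos (hne j (by have := j.2; omega))]
    rfl
  · intro h i
    have key : ∀ t : ℕ, ∀ j : Fin (n + 1), (j : ℕ) + t = n →
        rootMultiplicity (Λ i) ((derivative^[(j : ℕ)]) F) = M i j := by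
      intro t
      induction t with
      | zero =>
        intro j hj
        have hjl : j = Fin.last n := by
          apply Fin.ext
          simpa using hj
        have h0 : M i j = 0 := by rw [hjl]; exact (hM i).1
        rw [h0]
        apply rootMultiplicity_eq_zero
        intro hr
        have := (h i j).mp hr
        omega
      | succ t ih =>
        intro j hj
        have hjn : (j : ℕ) < n := by omega
        by_cases hz : 1 ≤ M i j
        · have hr : ((derivative^[(j : ℕ)]) F).IsRoot (Λ i) := (h i j).mpr hz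
          have h1 := derivative_rootMultiplicity_of_root hr
          have h2 := ih ⟨(j : ℕ) + 1, by omega⟩ (by simp; omega)
          simp only [Function.iterate_succ'] at h2
          simp only [Function.comp] at h2
          rw [h1] at h2
          have h3 := (hM i).2 ⟨(j : ℕ), hjn⟩ (by simpa using hz)
          have e1 : (⟨(j : ℕ), hjn⟩ : Fin n).castSucc = j := by apply Fin.ext; rfl
          have e2 : (⟨(j : ℕ), hjn⟩ : Fin n).succ = ⟨(j : ℕ) + 1, by omega⟩ := by
            apply Fin.ext; rfl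
          rw [e1, e2] at h3
          rw [h3] at h2
          have h4 : 0 < rootMultiplicity (Λ i) ((derivative^[(j : ℕ)]) F) :=
            (rootMultiplicity_pos (hne j (by omega))).mpr hr
          omega
        · have h0 : M i j = 0 := by omega
          rw [h0]
          apply rootMultiplicity_eq_zero
          intro hr
          have := (h i j).mp hr
          omega
    intro j
    exact key (n - j) j (by have := j.2; omega)

/-! ### rank condition and span membership -/

lemma rankCond_iff {m n : ℕ} (Λ : Fin m → K) (M : Fin m → Fin (n + 1) → ℕ) (N : ℕ) :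
    RankCond Λ M N ↔ ∀ w : Fin m × Fin (n + 1), M w.1 w.2 = 0 →
      row Λ N w ∉ Submodule.span K (row Λ N '' Zset M) := by
  unfold RankCond
  refine forall_congr' fun w => forall_congr' fun hw => ?_
  have e : Submodule.span K (row Λ N '' (insert w (Zset M)))
      = Submodule.span K (row Λ N '' Zset M) ⊔ Submodule.span K {row Λ N w} := by
    rw [Set.image_insert_eq, Submodule.span_insert, sup_comm]
  constructor
  · intro h hmem
    unfold rk at h
    rw [e] at h
    have h2 : Submodule.span K {row Λ N w} ≤ Submodule.span K (row Λ N '' Zset M) := by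
      rw [Submodule.span_le]
      intro x hx
      rw [Set.mem_singleton_iff] at hx
      rw [hx]
      exact hmem
    rw [sup_eq_left.mpr h2] at h
    omega
  · intro h
    unfold rk
    rw [e]
    exact Submodule.finrank_sup_span_singleton h

/-- the linear form `v ↦ ∑ c_l v_l` -/
def form {N : ℕ} (c : Fin (N + 1) → K) : (Fin (N + 1) → K) →ₗ[K] K where
  toFun v := ∑ l, c l * v l
  map_add' v w := by simp [mul_add, Finset.sum_add_distrib]
  map_smul' r v := by
    simp only [Pi.smul_apply, smul_eq_mul, RingHom.id_apply, Finset.mul_sum]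
    apply Finset.sum_congr rfl
    intro l _
    ring

/-- the linear form `c ↦ ∑ c_l v_l` -/
def dform {N : ℕ} (v : Fin (N + 1) → K) : (Fin (N + 1) → K) →ₗ[K] K where
  toFun c := ∑ l, c l * v l
  map_add' c d := by simp [add_mul, Finset.sum_add_distrib]
  map_smul' r c := by
    simp only [Pi.smul_apply, smul_eq_mul, RingHom.id_apply, Finset.mul_sum]
    apply Finset.sum_congr rfl
    intro l _
    ring

lemma dform_apply {N : ℕ} (c v : Fin (N + 1) → K) : dform v c = ∑ l, c l * v l := rfl

/-- a polynomial with prescribed coefficients -/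
noncomputable def ofCoeff {N : ℕ} (c : Fin (N + 1) → K) : K[X] :=
  ∑ l : Fin (N + 1), monomial (l : ℕ) (c l)

lemma coeff_ofCoeff {N : ℕ} (c : Fin (N + 1) → K) (l : Fin (N + 1)) :
    (ofCoeff c).coeff l = c l := by
  unfold ofCoeff
  rw [finsetSum_coeff, Finset.sum_eq_single l]
  · simp
  · intro b _ hb
    rw [coeff_monomial, if_neg]
    intro h
    exact hb (Fin.ext h)
  · intro h
    exact absurd (Finset.mem_univ l) h

lemma natDegree_ofCoeff {N : ℕ} (c : Fin (N + 1) → K) : (ofCoeff c).natDegree ≤ N := by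
  unfold ofCoeff
  apply natDegree_sum_le_of_forall_le
  intro l _
  refine (natDegree_monomial_le _).trans ?_
  have := l.2
  omega

/-- nonvanishing at one zero entry, from a single polynomial -/
lemma notMem_of_poly {m n : ℕ} (Λ : Fin m → K) (M : Fin m → Fin (n + 1) → ℕ) (N : ℕ)
    (w : Fin m × Fin (n + 1)) (F : K[X]) (hF : F.natDegree ≤ N)
    (hz : ∀ s ∈ Zset M, ((derivative^[(s.2 : ℕ)]) F).eval (Λ s.1) = 0)
    (hw : ((derivative^[(w.2 : ℕ)]) F).eval (Λ w.1) ≠ 0) :
    row Λ N w ∉ Submodule.span K (row Λ N '' Zset M) := by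
  intro hmem
  have hle : Submodule.span K (row Λ N '' Zset M)
      ≤ LinearMap.ker (form (fun l : Fin (N + 1) => F.coeff l)) := by
    rw [Submodule.span_le]
    rintro _ ⟨s, hs, rfl⟩
    have := hz s hs
    rw [eval_deriv N F hF] at this
    exact this
  have h1 := hle hmem
  apply hw
  rw [eval_deriv N F hF]
  exact h1

/-- the main equivalence -/
lemma main_iff [CharZero K] {m n : ℕ} (hm : 0 < m) (Λ : Fin m → K)
    (M : Fin m → Fin (n + 1) → ℕ) (hM : IsMultMatrix m n M) (N : ℕ) :
    (∃ F : K[X], Extends Λ M F ∧ F.natDegree ≤ N) ↔ (n ≤ N ∧ RankCond Λ M N) := by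
  rw [rankCond_iff]
  constructor
  · rintro ⟨F, ⟨h1, h0, h2⟩, h3⟩
    refine ⟨h1.trans h3, ?_⟩
    rw [pattern Λ M hM.1 F h0 h1] at h2
    intro w hw
    apply notMem_of_poly Λ M N w F h3
    · intro s hs
      exact (h2 s.1 s.2).mpr hs
    · intro h
      have := (h2 w.1 w.2).mp h
      omega
  · rintro ⟨hn, hr⟩
    -- solution space
    let p : Submodule K (Fin (N + 1) → K) :=
      ⨅ s ∈ Zset M, LinearMap.ker (dform (row Λ N s))
    let W := {w : Fin m × Fin (n + 1) // M w.1 w.2 = 0}
    have hex : ∀ w : W, ∃ c ∈ p, (dform (row Λ N w.1)) c ≠ 0 := by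
      intro w
      obtain ⟨f, hf1, hf2⟩ := Submodule.exists_dual_map_eq_bot_of_notMem (hr w.1 w.2) inferInstance
      classical
      refine ⟨fun l => f (fun j => if l = j then 1 else 0), ?_, ?_⟩
      · simp only [p, Submodule.mem_iInf, LinearMap.mem_ker]
        intro s hs
        have h1 : f (row Λ N s) = 0 := by
          have h2 : f (row Λ N s) ∈ Submodule.map f (Submodule.span K (row Λ N '' Zset M)) :=
            Submodule.mem_map_of_mem (Submodule.subset_span ⟨s, hs, rfl⟩)
          rw [hf2] at h2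
          exact h2
        rw [LinearMap.pi_apply_eq_sum_univ f] at h1
        rw [dform_apply]
        refine Eq.trans ?_ h1
        apply Finset.sum_congr rfl
        intro l _
        rw [smul_eq_mul, mul_comm]
      · intro h
        apply hf1
        rw [dform_apply] at h
        rw [LinearMap.pi_apply_eq_sum_univ f]
        refine Eq.trans ?_ h
        apply Finset.sum_congr rfl
        intro l _
        rw [smul_eq_mul, mul_comm]
    obtain ⟨c, hc, hcw⟩ := Module.Dual.exists_forall_mem_ne_zero_of_forall_exists p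
      (fun w : W => dform (row Λ N w.1)) hex
    have hdeg := natDegree_ofCoeff c
    have hev : ∀ s : Fin m × Fin (n + 1),
        ((derivative^[(s.2 : ℕ)]) (ofCoeff c)).eval (Λ s.1) = dform (row Λ N s) c := by
      intro s
      rw [eval_deriv N (ofCoeff c) hdeg, dform_apply]
      apply Finset.sum_congr rfl
      intro l _
      rw [coeff_ofCoeff]
      rfl
    have hpat : ∀ (i : Fin m) (j : Fin (n + 1)),
        (((derivative^[(j : ℕ)]) (ofCoeff c)).eval (Λ i) = 0 ↔ 1 ≤ M i j) := by
      intro i j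
      rw [hev (i, j)]
      constructor
      · intro h
        by_contra h2
        exact hcw ⟨(i, j), by simpa using h2⟩ h
      · intro h
        simp only [p, Submodule.mem_iInf, LinearMap.mem_ker] at hc
        exact hc (i, j) h
    have hnd : n ≤ (ofCoeff c).natDegree := by
      by_contra hlt
      push Not at hlt
      have h1 := (hpat ⟨0, hm⟩ (Fin.last n)).mp (by
        have h2 : (derivative^[((Fin.last n : Fin (n + 1)) : ℕ)]) (ofCoeff c) = 0 := by
          apply iterate_derivative_eq_zero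
          simpa using hlt
        rw [h2]
        simp)
      have h3 := (hM.1 ⟨0, hm⟩).1
      omega
    have h0 : ofCoeff c ≠ 0 := by
      intro h
      have h1 := (hpat ⟨0, hm⟩ (Fin.last n)).mp (by rw [h]; simp)
      have h3 := (hM.1 ⟨0, hm⟩).1
      omega
    exact ⟨ofCoeff c, ⟨hnd, h0, (pattern Λ M hM.1 _ h0 hnd).mpr hpat⟩, hdeg⟩

/-! ### the upper bound -/

lemma lt_lastPos {m n : ℕ} (M : Fin m → Fin (n + 1) → ℕ) (s : Fin m × Fin (n + 1))
    (hs : s ∈ Zset M) : (s.2 : ℕ) < lastPos M s.1 := by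
  unfold lastPos
  have h := Finset.le_sup (f := fun k : Fin (n + 1) => if 1 ≤ M s.1 k then (k : ℕ) + 1 else 0)
    (Finset.mem_univ s.2)
  have hs' : 1 ≤ M s.1 s.2 := hs
  simp only [hs', if_true] at h
  omega

lemma eval_deriv_of_dvd (a : K) (e l : ℕ) (hl : l < e) (F : K[X]) (h : (X - C a) ^ e ∣ F) :
    ((derivative^[l]) F).eval a = 0 := by
  have h1 := pow_sub_dvd_iterate_derivative_of_pow_dvd l h
  have h2 : (X - C a) ∣ (derivative^[l]) F := by
    refine (dvd_pow_self _ ?_).trans h1
    omega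
  exact (dvd_iff_isRoot.mp h2)

lemma bound_polyq [CharZero K] {m n : ℕ} (Λ : Fin m → K) (hΛ : Function.Injective Λ)
    (M : Fin m → Fin (n + 1) → ℕ) (w : Fin m × Fin (n + 1)) (hw : M w.1 w.2 = 0)
    (q : ℕ) (hq : (w.2 : ℕ) < q) (hq2 : lastPos M w.1 ≤ q) :
    ∃ F : K[X], F.natDegree ≤ (q - 1) + ∑ j ∈ Finset.univ.erase w.1, lastPos M j ∧
      (∀ s ∈ Zset M, ((derivative^[(s.2 : ℕ)]) F).eval (Λ s.1) = 0) ∧
      ((derivative^[(w.2 : ℕ)]) F).eval (Λ w.1) ≠ 0 := by
  obtain ⟨i, k⟩ := w
  simp only at hw hq hq2 ⊢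
  set P : K[X] := ∏ j ∈ Finset.univ.erase i, (X - C (Λ j)) ^ lastPos M j with hP
  set Y : K[X] := (X - C (Λ i)) ^ q with hY
  have hYm : Y.Monic := (monic_X_sub_C (Λ i)).pow q
  have hYd : Y.natDegree = q := by rw [hY]; simp
  have hcop : IsCoprime P Y := by
    rw [hP, hY]
    apply IsCoprime.prod_left
    intro j hj
    apply IsCoprime.pow
    have hne : j ≠ i := Finset.ne_of_mem_erase hj
    apply isCoprime_X_sub_C_of_isUnit_sub
    rw [isUnit_iff_ne_zero, sub_ne_zero]
    exact fun h => hne (hΛ h)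
  obtain ⟨u, v, huv⟩ := hcop
  set G : K[X] := ((X - C (Λ i)) ^ (k : ℕ) * u) %ₘ Y with hG
  have hGd : G.natDegree < q := by
    rw [← hYd]
    apply natDegree_modByMonic_lt _ hYm
    intro h
    rw [h] at hYd
    simp at hYd
    omega
  have hdiv := modByMonic_add_div ((X - C (Λ i)) ^ (k : ℕ) * u) Y
  have hF : Y ∣ P * G - (X - C (Λ i)) ^ (k : ℕ) := by
    refine ⟨-(P * (((X - C (Λ i)) ^ (k : ℕ) * u) /ₘ Y)) - (X - C (Λ i)) ^ (k : ℕ) * v, ?_⟩
    have e1 : G = (X - C (Λ i)) ^ (k : ℕ) * u - Y * (((X - C (Λ i)) ^ (k : ℕ) * u) /ₘ Y) := by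
      rw [← hG] at hdiv
      linear_combination hdiv
    rw [e1]
    linear_combination (X - C (Λ i)) ^ (k : ℕ) * huv
  have hev : ∀ l : ℕ, l < q → ((derivative^[l]) (P * G)).eval (Λ i)
      = ((derivative^[l]) ((X - C (Λ i)) ^ (k : ℕ))).eval (Λ i) := by
    intro l hl
    have h1 := eval_deriv_of_dvd (Λ i) q l hl _ hF
    rw [iterate_derivative_sub, eval_sub, sub_eq_zero] at h1
    exact h1
  refine ⟨P * G, ?_, ?_, ?_⟩
  · refine natDegree_mul_le.trans ?_
    have h1 : P.natDegree ≤ ∑ j ∈ Finset.univ.erase i, lastPos M j := by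
      rw [hP]
      refine (natDegree_prod_le _ _).trans ?_
      apply Finset.sum_le_sum
      intro j _
      simp
    omega
  · rintro ⟨j, l⟩ hs
    simp only
    by_cases hji : j = i
    · subst hji
      have hlk : (l : ℕ) ≠ (k : ℕ) := by
        intro h
        have h2 : l = k := Fin.ext h
        have h3 : 1 ≤ M j l := hs
        rw [h2] at h3
        omega
      have hlq : (l : ℕ) < q := lt_of_lt_of_le (lt_lastPos M (j, l) hs) hq2
      rw [hev l hlq, iterate_derivative_X_sub_pow]
      rcases lt_or_gt_of_ne hlk with h | h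
      · rw [eval_smul, eval_pow, eval_sub, eval_X, eval_C, sub_self, zero_pow (by omega)]
        simp
      · rw [Nat.descFactorial_eq_zero_iff_lt.mpr h]
        simp
    · apply eval_deriv_of_dvd (Λ j) (lastPos M j) l (lt_lastPos M (j, l) hs)
      refine Dvd.dvd.mul_right ?_ G
      rw [hP]
      exact Finset.dvd_prod_of_mem (fun j => (X - C (Λ j)) ^ lastPos M j)
        (Finset.mem_erase.mpr ⟨hji, Finset.mem_univ j⟩)
  · rw [hev k hq, iterate_derivative_X_sub_pow]
    simp [Nat.descFactorial_self, Nat.factorial_ne_zero]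

lemma bound_poly [CharZero K] {m n : ℕ} (Λ : Fin m → K) (hΛ : Function.Injective Λ)
    (M : Fin m → Fin (n + 1) → ℕ) (w : Fin m × Fin (n + 1)) (hw : M w.1 w.2 = 0) :
    ∃ F : K[X], F.natDegree ≤ n + ∑ j ∈ Finset.univ.erase w.1, lastPos M j ∧
      (∀ s ∈ Zset M, ((derivative^[(s.2 : ℕ)]) F).eval (Λ s.1) = 0) ∧
      ((derivative^[(w.2 : ℕ)]) F).eval (Λ w.1) ≠ 0 := by
  have h := bound_polyq Λ hΛ M w hw (n + 1) w.2.2 (by
    unfold lastPos
    apply Finset.sup_le
    intro k _
    split_ifs
    · have := k.2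
      omega
    · omega)
  simpa using h

lemma lastPos_le {m n : ℕ} (M : Fin m → Fin (n + 1) → ℕ) (hM : ∀ i, IsMultVec n (M i))
    (i : Fin m) : lastPos M i ≤ n := by
  unfold lastPos
  apply Finset.sup_le
  intro k _
  split_ifs with h
  · have h2 : k ≠ Fin.last n := by
      intro h3
      rw [h3, (hM i).1] at h
      omega
    have := Fin.val_lt_last h2
    omega
  · omega

/-- the bound `n + max_i ∑_{j ≠ i} lastPos M j` -/
def bnd {m n : ℕ} (M : Fin m → Fin (n + 1) → ℕ) : ℕ :=
  n + Finset.univ.sup (fun i : Fin m => ∑ j ∈ Finset.univ.erase i, lastPos M j)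

lemma rankCond_bnd [CharZero K] {m n : ℕ} (Λ : Fin m → K) (hΛ : Function.Injective Λ)
    (M : Fin m → Fin (n + 1) → ℕ) : RankCond Λ M (bnd M) := by
  rw [rankCond_iff]
  intro w hw
  obtain ⟨F, h1, h2, h3⟩ := bound_poly Λ hΛ M w hw
  refine notMem_of_poly Λ M _ w F (h1.trans ?_) h2 h3
  unfold bnd
  have := Finset.le_sup (f := fun i : Fin m => ∑ j ∈ Finset.univ.erase i, lastPos M j)
    (Finset.mem_univ w.1)
  omega

lemma bnd_le {m n : ℕ} (M : Fin m → Fin (n + 1) → ℕ) (hm : 0 < m)
    (hM : ∀ i, IsMultVec n (M i)) : bnd M ≤ m * n := by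
  unfold bnd
  have h : Finset.univ.sup (fun i : Fin m => ∑ j ∈ Finset.univ.erase i, lastPos M j)
      ≤ (m - 1) * n := by
    apply Finset.sup_le
    intro i _
    calc ∑ j ∈ Finset.univ.erase i, lastPos M j ≤ ∑ _j ∈ Finset.univ.erase i, n :=
          Finset.sum_le_sum fun j _ => lastPos_le M hM j
      _ = (m - 1) * n := by
          rw [Finset.sum_const, Finset.card_erase_of_mem (Finset.mem_univ i)]
          simp
  obtain ⟨t, rfl⟩ : ∃ t, m = t + 1 := ⟨m - 1, by omega⟩
  have h2 : (t + 1 - 1) * n = t * n := by simp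
  rw [h2] at h
  rw [Nat.add_mul, one_mul]
  omega


/-! ### the second upper bound -/

lemma aux_RS {ι : Type*} [DecidableEq ι] (J : Finset ι) (r : ι → K) (hr : ∀ j ∈ J, r j ≠ 0)
    (e : ι → ℕ) : ∃ R S : K[X], R.degree = (J.card : WithBot ℕ) ∧ R.coeff 0 ≠ 0 ∧
      derivative (∏ j ∈ J, (X - C (r j)) ^ e j) * R = (∏ j ∈ J, (X - C (r j)) ^ e j) * S ∧
      S.degree < (J.card : WithBot ℕ) := by
  induction J using Finset.induction_on with
  | empty => exact ⟨1, 0, by simp, by simp, by simp, by simp⟩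
  | insert a J ha ih =>
    obtain ⟨R, S, h1, h2, h3, h4⟩ := ih (fun j hj => hr j (Finset.mem_insert_of_mem hj))
    have hra : r a ≠ 0 := hr a (Finset.mem_insert_self a J)
    refine ⟨(X - C (r a)) * R, C (e a : K) * R + (X - C (r a)) * S, ?_, ?_, ?_, ?_⟩
    · rw [degree_mul, h1, degree_X_sub_C, Finset.card_insert_of_notMem ha]
      push_cast
      rw [add_comm]
    · rw [mul_coeff_zero]
      simp [hra, h2]
    · rw [Finset.prod_insert ha, derivative_mul]
      have h5 : derivative ((X - C (r a)) ^ e a) * (X - C (r a))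
          = C (e a : K) * (X - C (r a)) ^ e a := by
        rw [derivative_pow]
        rcases Nat.eq_zero_or_pos (e a) with h | h
        · simp [h]
        · obtain ⟨t, ht⟩ : ∃ t, e a = t + 1 := ⟨e a - 1, by omega⟩
          rw [ht]
          simp [pow_succ]
          ring
      linear_combination ((∏ j ∈ J, (X - C (r j)) ^ e j) * R) * h5
        + ((X - C (r a)) ^ e a * (X - C (r a))) * h3
    · rw [Finset.card_insert_of_notMem ha]
      refine lt_of_le_of_lt (degree_add_le _ _) ?_
      rw [max_lt_iff]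
      constructor
      · refine lt_of_le_of_lt (degree_mul_le _ _) ?_
        rw [h1]
        refine lt_of_le_of_lt (add_le_add (degree_C_le) le_rfl) ?_
        rw [zero_add]
        exact_mod_cast Nat.lt_succ_self _
      · rw [degree_mul, degree_X_sub_C]
        push_cast
        rw [add_comm]
        exact WithBot.add_lt_add_right (by simp) h4

lemma exists_coeff {ι : Type*} [DecidableEq ι] [CharZero K] (J : Finset ι) (r : ι → K)
    (hr : ∀ j ∈ J, r j ≠ 0) (e : ι → ℕ) (a : ℕ) (ha : a ≤ ∑ j ∈ J, e j) :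
    ∃ Q : K[X], Q.natDegree ≤ J.card - 1 ∧
      ((∏ j ∈ J, (X - C (r j)) ^ e j) * Q).coeff a ≠ 0 := by
  set U : K[X] := ∏ j ∈ J, (X - C (r j)) ^ e j with hU
  have hUm : U.Monic := monic_prod_of_monic _ _ fun j _ => (monic_X_sub_C _).pow _
  have hUd : U.natDegree = ∑ j ∈ J, e j := by
    rw [hU, natDegree_prod_of_monic _ _ (fun j _ => (monic_X_sub_C _).pow _)]
    apply Finset.sum_congr rfl
    intro j _
    simp
  rcases Nat.eq_zero_or_pos J.card with hJ | hJ
  · have hJ' : J = ∅ := Finset.card_eq_zero.mp hJ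
    refine ⟨1, by simp, ?_⟩
    have ha0 : a = 0 := by
      rw [hJ'] at ha
      simpa using ha
    rw [ha0, hU, hJ']
    simp
  · obtain ⟨R, S, h1, h2, h3, h4⟩ := aux_RS J r hr e
    rw [← hU] at h3
    by_contra hcon
    push Not at hcon
    have key : ∀ b : ℕ, a ≤ b → ∀ Q : K[X], Q.natDegree ≤ J.card - 1 → (U * Q).coeff b = 0 := by
      intro b hb
      induction b, hb using Nat.le_induction with
      | base => exact fun Q hQ => hcon Q hQ
      | succ b hb ih =>
        have hRn : R.natDegree = J.card := natDegree_eq_of_degree_eq_some h1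
        have hSn : S.natDegree ≤ J.card - 1 := by
          by_cases hS : S = 0
          · rw [hS]; simp
          · have := (natDegree_lt_iff_degree_lt hS).mpr h4
            omega
        have hR0 : (U * R).coeff (b + 1) = 0 := by
          have h5 : (derivative (U * R)).coeff b = 0 := by
            rw [derivative_mul, h3, ← mul_add]
            apply ih
            refine (natDegree_add_le _ _).trans (max_le hSn ?_)
            have := natDegree_derivative_le R
            omega
          rw [coeff_derivative, mul_eq_zero] at h5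
          rcases h5 with h5 | h5
          · exact h5
          · exact absurd h5 (by exact_mod_cast Nat.succ_ne_zero b)
        intro Q hQ
        set α : K := Q.coeff 0 / R.coeff 0 with hα
        have hα' : α * R.coeff 0 = Q.coeff 0 := by
          rw [hα]
          field_simp
        have hz : (Q - C α * R).coeff 0 = 0 := by
          rw [coeff_sub, coeff_C_mul, hα', sub_self]
        have hdx := divX_mul_X_add (Q - C α * R)
        rw [hz, C_0, add_zero] at hdx
        have hd1 : (Q - C α * R).divX.natDegree ≤ J.card - 1 := by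
          rw [natDegree_divX_eq_natDegree_tsub_one]
          have h6 : (Q - C α * R).natDegree ≤ J.card := by
            refine (natDegree_sub_le _ _).trans (max_le (by omega) ?_)
            refine (natDegree_C_mul_le _ _).trans ?_
            omega
          omega
        have h7 : U * Q = C α * (U * R) + X * (U * (Q - C α * R).divX) := by
          linear_combination (-U) * hdx
        rw [h7, coeff_add, coeff_C_mul, hR0, coeff_X_mul, ih _ hd1]
        simp
    have h8 := key U.natDegree (by omega) 1 (by simp)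
    rw [mul_one] at h8
    have h9 : U.coeff U.natDegree = 1 := hUm
    rw [h9] at h8
    exact one_ne_zero h8

lemma eval_deriv_eq_coeff (a : K) (k : ℕ) (F : K[X]) :
    ((derivative^[k]) F).eval a = (k.factorial : K) * (F.comp (X + C a)).coeff k := by
  rw [← taylor_apply, taylor_coeff, ← factorial_smul_hasseDeriv]
  simp

lemma Zset_zero {m n : ℕ} (Λ : Fin m → K) (M : Fin m → Fin (n + 1) → ℕ) (F : K[X])
    (h : (∏ j : Fin m, (X - C (Λ j)) ^ lastPos M j) ∣ F) :
    ∀ s ∈ Zset M, ((derivative^[(s.2 : ℕ)]) F).eval (Λ s.1) = 0 := by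
  intro s hs
  apply eval_deriv_of_dvd (Λ s.1) (lastPos M s.1) s.2 (lt_lastPos M s hs)
  exact (Finset.dvd_prod_of_mem (fun j => (X - C (Λ j)) ^ lastPos M j)
    (Finset.mem_univ s.1)).trans h

lemma bound_poly2 [CharZero K] {m n : ℕ} (Λ : Fin m → K) (hΛ : Function.Injective Λ)
    (M : Fin m → Fin (n + 1) → ℕ) (w : Fin m × Fin (n + 1)) (hw : M w.1 w.2 = 0) :
    ∃ F : K[X], F.natDegree ≤ max n (∑ j, lastPos M j + (m - 2)) ∧
      (∀ s ∈ Zset M, ((derivative^[(s.2 : ℕ)]) F).eval (Λ s.1) = 0) ∧
      ((derivative^[(w.2 : ℕ)]) F).eval (Λ w.1) ≠ 0 := by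
  have hsum : ∑ j, lastPos M j = lastPos M w.1 + ∑ j ∈ Finset.univ.erase w.1, lastPos M j :=
    (Finset.add_sum_erase _ _ (Finset.mem_univ w.1)).symm
  set E := ∑ j, lastPos M j with hE
  set P : K[X] := ∏ j : Fin m, (X - C (Λ j)) ^ lastPos M j with hP
  have hPm : P.Monic := monic_prod_of_monic _ _ fun j _ => (monic_X_sub_C _).pow _
  have hPd : P.natDegree = E := by
    rw [hP, natDegree_prod_of_monic _ _ (fun j _ => (monic_X_sub_C _).pow _), hE]
    apply Finset.sum_congr rfl
    intro j _
    simp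
  rcases lt_or_ge (w.2 : ℕ) (lastPos M w.1) with hA | hA
  · -- the zero entry lies before the last nonzero entry of its row
    obtain ⟨F, h1, h2, h3⟩ := bound_polyq Λ hΛ M w hw (lastPos M w.1) hA le_rfl
    refine ⟨F, h1.trans ?_, h2, h3⟩
    refine le_trans ?_ (le_max_right _ _)
    omega
  rcases le_or_gt (w.2 : ℕ) E with hB | hC
  · have hr : ∀ j ∈ Finset.univ.erase w.1, Λ j - Λ w.1 ≠ 0 := by
      intro j hj h
      exact (Finset.ne_of_mem_erase hj) (hΛ (sub_eq_zero.mp h))
    obtain ⟨Q, hQ1, hQ2⟩ := exists_coeff (Finset.univ.erase w.1) (fun j => Λ j - Λ w.1) hr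
      (lastPos M) ((w.2 : ℕ) - lastPos M w.1) (by omega)
    refine ⟨P * Q.comp (X - C (Λ w.1)), ?_, ?_, ?_⟩
    · refine le_trans ?_ (le_max_right _ _)
      refine natDegree_mul_le.trans ?_
      rw [hPd]
      have h1 : (Q.comp (X - C (Λ w.1))).natDegree ≤ Q.natDegree := by
        refine natDegree_comp_le.trans ?_
        simp
      rw [Finset.card_erase_of_mem (Finset.mem_univ w.1), Finset.card_fin] at hQ1
      omega
    · exact Zset_zero Λ M _ (Dvd.intro _ rfl)
    · rw [eval_deriv_eq_coeff]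
      apply mul_ne_zero (by exact_mod_cast Nat.factorial_ne_zero _)
      have h1 : (P * Q.comp (X - C (Λ w.1))).comp (X + C (Λ w.1))
          = X ^ lastPos M w.1 *
            ((∏ j ∈ Finset.univ.erase w.1, (X - C (Λ j - Λ w.1)) ^ lastPos M j) * Q) := by
        rw [mul_comp, comp_assoc]
        have h2 : (X - C (Λ w.1) : K[X]).comp (X + C (Λ w.1)) = X := by simp
        rw [h2, comp_X, hP, prod_comp]
        rw [← Finset.mul_prod_erase Finset.univ _ (Finset.mem_univ w.1)]
        rw [pow_comp, h2, mul_assoc]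
        congr 2
        apply Finset.prod_congr rfl
        intro j _
        rw [pow_comp]
        congr 1
        rw [sub_comp, X_comp, C_comp, C_sub]
        ring
      rw [h1, coeff_X_pow_mul', if_pos hA]
      exact hQ2
  · have hk : (w.2 : ℕ) ≤ n := by have := w.2.2; omega
    have hFm : (P * X ^ ((w.2 : ℕ) - E)).Monic := hPm.mul (monic_X_pow _)
    have hFd : (P * X ^ ((w.2 : ℕ) - E)).natDegree = (w.2 : ℕ) := by
      rw [hPm.natDegree_mul (monic_X_pow _), hPd, natDegree_X_pow]
      omega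
    refine ⟨P * X ^ ((w.2 : ℕ) - E), ?_, ?_, ?_⟩
    · rw [hFd]
      exact hk.trans (le_max_left _ _)
    · exact Zset_zero Λ M _ (Dvd.intro _ rfl)
    · rw [eval_deriv_eq_coeff]
      apply mul_ne_zero (by exact_mod_cast Nat.factorial_ne_zero _)
      have h1 : ((P * X ^ ((w.2 : ℕ) - E)).comp (X + C (Λ w.1))).Monic := hFm.comp_X_add_C _
      have h2 : ((P * X ^ ((w.2 : ℕ) - E)).comp (X + C (Λ w.1))).natDegree = (w.2 : ℕ) := by
        rw [natDegree_comp, hFd]
        simp
      have h3 : ((P * X ^ ((w.2 : ℕ) - E)).comp (X + C (Λ w.1))).coeff (w.2 : ℕ) = 1 := by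
        have h4 : ((P * X ^ ((w.2 : ℕ) - E)).comp (X + C (Λ w.1))).leadingCoeff = 1 := h1
        rw [leadingCoeff, h2] at h4
        exact h4
      rw [h3]
      exact one_ne_zero

lemma rankCond_bnd2 [CharZero K] {m n : ℕ} (Λ : Fin m → K) (hΛ : Function.Injective Λ)
    (M : Fin m → Fin (n + 1) → ℕ) : RankCond Λ M (max n (∑ j, lastPos M j + (m - 2))) := by
  rw [rankCond_iff]
  intro w hw
  obtain ⟨F, h1, h2, h3⟩ := bound_poly2 Λ hΛ M w hw
  exact notMem_of_poly Λ M _ w F h1 h2 h3

/-- Let `K` be a field of characteristic `0`, `m ≥ 1`, `Λ` a sequence of `m` distinct elements of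
`K` and `M` an `m × (n+1)` multiplicity matrix.  Then the least degree `N(M, Λ)` of a polynomial
extending `M` is the least `N ≥ n` such that the rank condition holds at `N`; for every `N` there
is an extension of degree at most `N` exactly when `n ≤ N` and the rank condition holds at `N`; and
`N(M, Λ) ≤ n + max_i ∑_{j ≠ i} lastPos M j ≤ m n`. -/
theorem result [CharZero K] {m n : ℕ} (hm : 0 < m) (Λ : Fin m → K)
    (hΛ : Function.Injective Λ) (M : Fin m → Fin (n + 1) → ℕ) (hM : IsMultMatrix m n M) :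
    (∀ N : ℕ, (∃ F : K[X], Extends Λ M F ∧ F.natDegree ≤ N) ↔ (n ≤ N ∧ RankCond Λ M N)) ∧
    (∃ N : ℕ, IsLeast (degrees Λ M) N ∧ IsLeast {N : ℕ | n ≤ N ∧ RankCond Λ M N} N ∧
      N ≤ n + Finset.univ.sup (fun i : Fin m => ∑ j ∈ Finset.univ.erase i, lastPos M j) ∧
      N ≤ m * n ∧ N ≤ max n (∑ j, lastPos M j + (m - 2))) := by
  refine ⟨fun N => main_iff hm Λ M hM N, ?_⟩
  set S : Set ℕ := {N : ℕ | n ≤ N ∧ RankCond Λ M N} with hS
  have hmem : bnd M ∈ S := ⟨by unfold bnd; omega, rankCond_bnd Λ hΛ M⟩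
  have hleast : IsLeast S (sInf S) := ⟨Nat.sInf_mem ⟨_, hmem⟩, fun x hx => Nat.sInf_le hx⟩
  have hmem2 : max n (∑ j, lastPos M j + (m - 2)) ∈ S := ⟨le_max_left _ _, rankCond_bnd2 Λ hΛ M⟩
  refine ⟨sInf S, ?_, hleast, Nat.sInf_le hmem, (Nat.sInf_le hmem).trans (bnd_le M hm hM.1),
    Nat.sInf_le hmem2⟩
  have hlow : ∀ d ∈ degrees Λ M, sInf S ≤ d := by
    rintro d ⟨F, hF, rfl⟩
    exact Nat.sInf_le ((main_iff hm Λ M hM F.natDegree).mp ⟨F, hF, le_refl _⟩)
  obtain ⟨F, hF, hFd⟩ := (main_iff hm Λ M hM (sInf S)).mpr hleast.1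
  have h1 := hlow F.natDegree ⟨F, hF, rfl⟩
  exact ⟨⟨F, hF, le_antisymm hFd h1⟩, hlow⟩

end Pool.Agent.Results.MP_680f50_nt.RankFormula
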